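import Mathlib

namespace Pool.Agent.Results.MP_17cdb9_nt.Full

open Finset

/-- `u ≡ v (mod p^m)` for rationals: `(u - v) / p^m` has denominator prime to `p` -/
def cong (p m : ℕ) (u v : ℚ) : Prop := ¬ p ∣ ((u - v) / (p : ℚ) ^ m).den

instance (p m : ℕ) (u v : ℚ) : Decidable (cong p m u v) := by unfold cong; infer_instance

/-- the generalized binomial coefficient `a (a-1) ⋯ (a-k+1) / k!` -/
def bin (a : ℚ) (k : ℕ) : ℚ := (∏ i ∈ range k, (a - i)) / k.factorial

theorem result : ¬ ∀ p : ℕ, p.Prime → p % 8 = 1 → ∀ x y : ℤ, (p : ℤ) = x ^ 2 + 2 * y ^ 2 →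
    cong p 2 (∑ k ∈ range p, (-1) ^ k * bin (-1 / 4) k ^ 2)
      ((-1) ^ ((x + 1) / 2) * (2 * x - p / (2 * x))) := by
  intro h
  have h1 := h 41 (by norm_num) (by norm_num) 3 4 (by norm_num)
  revert h1
  decide +kernel

end Pool.Agent.Results.MP_17cdb9_nt.Full
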